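import Mathlib
import Pool.Agent.R736.CircleGH

set_option autoImplicit false

/-! # Gromov-Hausdorff and Hausdorff distance for subsets of the circle: the sharp threshold

For a nonempty subset `X` of the circle of length `2π` (geodesic metric) let `dH X` be the Hausdorff
distance from `X` to the circle and `dGH X` the Gromov-Hausdorff distance between `X` and the
circle. Then `dGH X ≥ min (dH X) (π/3)`, so that `dGH X = dH X` whenever `dH X ≤ π/3`, and for every
`ε` with `π/3 < ε ≤ π` there is an `X` (a closed arc) with `dH X = ε` and `dGH X < dH X`. In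
particular the threshold `π/6` can be replaced by `π/3`, and by no larger constant.

Lower bound: if the distortion `δ` of a correspondence is smaller than the length of a gap of `X`, a
selection of it cannot cross the gap, so it is a real valued function `T` whose jumps are at most
`δ`, while the values at antipodal points differ by at least `π - δ`. Both `T (p) - T (-p)` and the
mixed differences change sign in one step of size at least `2 (π - δ)`, hence `3 δ ≥ 2 π`. -/

open Set Real

namespace Pool.Agent.Results.MP_124474_gt.SharpThreshold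

open Pool.Agent.R736.CircleGH

theorem result :
    (∀ X : Set Circ, X.Nonempty → min (dH X) (π / 3) ≤ dGH X) ∧
    (∀ X : Set Circ, X.Nonempty → dH X ≤ π / 3 → dGH X = dH X) ∧
    (∀ ε : ℝ, π / 3 < ε → ε ≤ π → ∃ X : Set Circ, X.Nonempty ∧ dH X = ε ∧ dGH X < dH X) ∧
    ¬ ∀ ε : ℝ, 0 < ε → ∃ X : Set Circ, X.Nonempty ∧ dH X < π / 6 + ε ∧ dGH X < dH X := by
  have hπ : (0 : ℝ) < π := Real.pi_pos
  have key : ∀ X : Set Circ, X.Nonempty → dH X ≤ π / 3 → dGH X = dH X := by
    intro X hX h
    refine le_antisymm (dGH_le_dH hX) ?_
    have := min_le_dGH hX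
    rwa [min_eq_left h] at this
  refine ⟨fun X hX => min_le_dGH hX, key, ?_, ?_⟩
  · intro ε h1 h2
    refine ⟨arc ε, arc_nonempty h2, dH_arc (by linarith) h2, ?_⟩
    rw [dH_arc (by linarith) h2]
    rcases le_total ε (2 * π / 3) with h3 | h3
    · exact (dGH_arc h1.le h3).trans_lt h1
    · exact (dGH_le_half_pi (arc_nonempty h2)).trans_lt (by linarith)
  · intro h
    obtain ⟨X, hX, h1, h2⟩ := h (π / 6) (by positivity)
    rw [key X hX (by linarith)] at h2
    exact lt_irrefl _ h2

end Pool.Agent.Results.MP_124474_gt.SharpThreshold
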